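import Pool.Agent.Helper72.LGA.Real

/-!
# The sum of the orders of the normal subgroups of a finite group is almost prime to the order

For every `ε > 0` there are `c > 0` and `C` such that for every real `x ≥ 2` at most
`C x exp (-(log x) ^ c)` natural numbers `n ≤ x` are the order of a finite group `G` such that the
greatest common divisor of `n` and `σ(G)` is larger than `exp ((log n) ^ ε)`, where `σ(G)` is the
sum of the orders of the normal subgroups of `G`. For a Leinster group this greatest common divisor
is `n`.
-/

set_option autoImplicit false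

namespace Pool.Agent.Results.MP_c4d704_al.AllGroups

open scoped Classical in
theorem result (ε : ℝ) (hε : 0 < ε) :
    ∃ c : ℝ, 0 < c ∧ ∃ C : ℝ, ∀ x : ℝ, 2 ≤ x →
      (Set.ncard {n : ℕ | (n : ℝ) ≤ x ∧
        ∃ (G : Type) (_ : Group G) (_ : Fintype G), Fintype.card G = n ∧
          Real.exp (Real.log n ^ ε) <
            (Nat.gcd n (∑ H : {H : Subgroup G // H.Normal}, Nat.card H) : ℝ)} : ℝ) ≤
        C * x * Real.exp (-(Real.log x ^ c)) :=
  Pool.Agent.Helper72.LGA.all_n hε

end Pool.Agent.Results.MP_c4d704_al.AllGroups
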