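import Pool.Agent.H86.Lei4

/-!
# Minimal normal subgroups of Leinster groups

`sig G` is the sum of the orders of the normal subgroups of `G`; a finite group is a Leinster group
if `sig G = 2 |G|`. `MinNormal V` says that `V` is a minimal normal subgroup of `G`.

* (1) For a minimal normal subgroup `V` of a Leinster group whose order does not divide `|G/V|`:
  `(|V| + 1) (2 |G/V| - sig (G/V)) ≤ |G/V|`, or `V` has a normal complement and this number is
  `2 |G/V|`.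
* (2) For every minimal normal subgroup `V` of a Leinster group, `|V| (|V| + 1) ≤ |G|`, or
  `|V| (|V| + 1) = 2 |G|` and `G = V × H` with `V` simple and `sig H = 2 |H| - 1`. (3) Converse.
* (4) The Leinster groups with `|G| = |V| (|V| + 1)`.
-/

set_option autoImplicit false

namespace Pool.Agent.Results.MP_c4d704_al.MinNormal

open Subgroup Pool.Agent.H86.Lei

universe u

theorem compl_iff {G : Type u} [Group G] {V : Subgroup G} {H : Subgroup G} :
    (H ∈ TT V ∧ V ⊔ H = ⊤) ↔ (H.Normal ∧ IsCompl V H) := by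
  constructor
  · rintro ⟨⟨h1, h2⟩, h3⟩
    refine ⟨h1, ⟨?_, ?_⟩⟩
    · rw [disjoint_iff, inf_comm]
      exact h2
    · rw [codisjoint_iff]
      exact h3
  · rintro ⟨h1, h2⟩
    refine ⟨⟨h1, ?_⟩, ?_⟩
    · rw [inf_comm]
      exact h2.inf_eq_bot
    · exact h2.sup_eq_top

theorem result :
    -- (1) the general inequality
    (∀ (G : Type u) [Group G] [Finite G] (V : Subgroup G) [V.Normal], MinNormal V →
      ¬ Nat.card V ∣ Nat.card (G ⧸ V) → sig G = 2 * Nat.card G →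
      0 < (2 * Nat.card (G ⧸ V) - sig (G ⧸ V) : ℤ) ∧
      (((Nat.card V : ℤ) + 1) * (2 * Nat.card (G ⧸ V) - sig (G ⧸ V)) ≤ Nat.card (G ⧸ V) ∨
        (((Nat.card V : ℤ) + 1) * (2 * Nat.card (G ⧸ V) - sig (G ⧸ V)) =
          2 * Nat.card (G ⧸ V) ∧ ∃ H : Subgroup G, H.Normal ∧ IsCompl V H))) ∧
    -- (2) the gap for minimal normal subgroups
    (∀ (G : Type u) [Group G] [Finite G] (V : Subgroup G), MinNormal V →
      sig G = 2 * Nat.card G →
      Nat.card V * (Nat.card V + 1) ≤ Nat.card G ∨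
      (Nat.card V * (Nat.card V + 1) = 2 * Nat.card G ∧ IsSimpleGroup V ∧
        ∃ H : Subgroup G, H.Normal ∧ IsCompl V H ∧ sig H + 1 = 2 * Nat.card H)) ∧
    -- (3) the converse
    (∀ (G : Type u) [Group G] [Finite G] (V : Subgroup G), MinNormal V →
      Nat.card V * (Nat.card V + 1) = 2 * Nat.card G →
      (∃ H : Subgroup G, H.Normal ∧ IsCompl V H ∧ sig H + 1 = 2 * Nat.card H) →
      sig G = 2 * Nat.card G) ∧
    -- (4) the second case
    (∀ (G : Type u) [Group G] [Finite G] (V : Subgroup G) [V.Normal], MinNormal V →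
      Nat.card G = Nat.card V * (Nat.card V + 1) →
      (sig G = 2 * Nat.card G ↔
        (∃ H : Subgroup G, H.Normal ∧ IsCompl V H ∧ sig H = 2 * Nat.card V) ∨
        ((¬ ∃ H : Subgroup G, H.Normal ∧ IsCompl V H) ∧ sig (G ⧸ V) = 2 * Nat.card V + 1 ∧
          ∀ M : Subgroup G, M.Normal → V ≤ M → M ≠ ⊤ →
            ∃ N : Subgroup G, N.Normal ∧ V ⊓ N = ⊥ ∧ V ⊔ N = M))) := by
  refine ⟨?_, ?_, ?_, ?_⟩
  · intro G _ _ V _ hV hd hL
    obtain ⟨h1, h2⟩ := main1 hV hd hL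
    refine ⟨by omega, ?_⟩
    rcases h2 with h | h
    · left
      have h3 : (((Nat.card V + 1) * (2 * Nat.card (G ⧸ V)) : ℕ) : ℤ) ≤
          ((Nat.card (G ⧸ V) + (Nat.card V + 1) * sig (G ⧸ V) : ℕ) : ℤ) := by
        exact_mod_cast h.1
      push_cast at h3
      linarith
    · right
      obtain ⟨h3, H, hH, hs⟩ := h
      refine ⟨?_, H, compl_iff.1 ⟨hH, hs⟩⟩
      have h4 : (((Nat.card V + 1) * (2 * Nat.card (G ⧸ V)) : ℕ) : ℤ) =
          ((2 * Nat.card (G ⧸ V) + (Nat.card V + 1) * sig (G ⧸ V) : ℕ) : ℤ) := by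
        exact_mod_cast h3
      push_cast at h4
      linarith
  · intro G _ _ V hV hL
    rcases gap hV hL with h | ⟨h1, H, hH, hs, h2⟩
    · exact Or.inl h
    · exact Or.inr ⟨h1, simple_of_compl hV hH hs, H, (compl_iff.1 ⟨hH, hs⟩).1,
        (compl_iff.1 ⟨hH, hs⟩).2, h2⟩
  · rintro G _ _ V hV h1 ⟨H, hH1, hH2, h2⟩
    have h3 : Nat.card G < Nat.card V * (Nat.card V + 1) := by
      have : 0 < Nat.card G := Nat.card_pos
      omega
    obtain ⟨h4, h5⟩ := compl_iff.2 ⟨hH1, hH2⟩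
    exact (iff1 hV h3).2 ⟨h1, H, h4, h5, h2⟩
  · intro G _ _ V _ hV heq
    rw [iff2 hV heq]
    constructor
    · rintro (⟨H, hH, hs, h1⟩ | ⟨h1, h2, h3⟩)
      · exact Or.inl ⟨H, (compl_iff.1 ⟨hH, hs⟩).1, (compl_iff.1 ⟨hH, hs⟩).2, h1⟩
      · refine Or.inr ⟨?_, h2, ?_⟩
        · rintro ⟨H, hH1, hH2⟩
          obtain ⟨h4, h5⟩ := compl_iff.2 ⟨hH1, hH2⟩
          exact h1 ⟨H, h4, h5⟩
        · intro M hM hVM hMt
          obtain ⟨N, hN, hs⟩ := h3 M hM hVM hMt
          exact ⟨N, hN.1, by rw [inf_comm]; exact hN.2, hs⟩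
    · rintro (⟨H, hH1, hH2, h1⟩ | ⟨h1, h2, h3⟩)
      · obtain ⟨h4, h5⟩ := compl_iff.2 ⟨hH1, hH2⟩
        exact Or.inl ⟨H, h4, h5, h1⟩
      · refine Or.inr ⟨?_, h2, ?_⟩
        · rintro ⟨H, hH, hs⟩
          exact h1 ⟨H, compl_iff.1 ⟨hH, hs⟩⟩
        · intro M hM hVM hMt
          obtain ⟨N, hN, hN', hs⟩ := h3 M hM hVM hMt
          exact ⟨N, ⟨hN, by rw [inf_comm]; exact hN'⟩, hs⟩

end Pool.Agent.Results.MP_c4d704_al.MinNormal
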