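import Pool.Agent.H86.Lei4

/-!
# Large prime divisors of the orders of Leinster groups

`sig G` is the sum of the orders of the normal subgroups of `G`; a finite group is a Leinster group
if `sig G = 2 |G|`. The Leinster groups `G` whose order has a prime divisor `p` with
`|G| ≤ p (p + 1)` are described: `G` has a normal subgroup `V` of order `p`, and one of three cases
holds, two of them with a normal complement `H` of `V`.
-/

set_option autoImplicit false

namespace Pool.Agent.Results.MP_c4d704_al.PrimeDivisor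

open Subgroup Pool.Agent.H86.Lei

universe u

theorem compl_iff {G : Type u} [Group G] {V : Subgroup G} {H : Subgroup G} :
    (H ∈ TT V ∧ V ⊔ H = ⊤) ↔ (H.Normal ∧ IsCompl V H) := by
  constructor
  · rintro ⟨⟨h1, h2⟩, h3⟩
    refine ⟨h1, ⟨?_, ?_⟩⟩
    · rw [disjoint_iff, inf_comm]
      exact h2
    · rw [codisjoint_iff]
      exact h3
  · rintro ⟨h1, h2⟩
    refine ⟨⟨h1, ?_⟩, ?_⟩
    · rw [inf_comm]
      exact h2.inf_eq_bot
    · exact h2.sup_eq_top

/-- The Leinster groups with a prime divisor `p` of the order such that `|G| ≤ p (p + 1)`. -/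
theorem result (G : Type u) [Group G] [Finite G] (p : ℕ) (hp : p.Prime) (hd : p ∣ Nat.card G)
    (hle : Nat.card G ≤ p * (p + 1)) :
    sig G = 2 * Nat.card G ↔ ∃ (V : Subgroup G) (_ : V.Normal), Nat.card V = p ∧
      ((2 * Nat.card G = p * (p + 1) ∧
          ∃ H : Subgroup G, H.Normal ∧ IsCompl V H ∧ sig H = p) ∨
        (Nat.card G = p * (p + 1) ∧
          ∃ H : Subgroup G, H.Normal ∧ IsCompl V H ∧ sig H = 2 * p) ∨
        (Nat.card G = p * (p + 1) ∧ sig (G ⧸ V) = 2 * p + 1 ∧
          (centralizer (V : Set G)).index = 2 ∧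
          (∃ K : Subgroup G, K.Normal ∧ V ⊓ K = ⊥ ∧ V ⊔ K = centralizer (V : Set G)) ∧
          ∀ M : Subgroup G, M.Normal → V ≤ M → M ≠ ⊤ → M ≤ centralizer (V : Set G))) := by
  have hp2 := hp.two_le
  constructor
  · intro hL
    obtain ⟨V, hVn, hVc⟩ := exists_normal hp hd hle hL
    have hV := minNormal_of_prime hp hVn hVc
    refine ⟨V, hVn, hVc, ?_⟩
    rcases gap hV hL with h | ⟨h1, H, hH, hs, h2⟩
    · rw [hVc] at h
      have heq : Nat.card G = p * (p + 1) := le_antisymm hle h
      have heq' : Nat.card G = Nat.card V * (Nat.card V + 1) := by rw [hVc]; exact heq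
      right
      rcases (iff2 hV heq').1 hL with ⟨H, hH, hs, h1⟩ | ⟨h1, h2, h3⟩
      · left
        rw [hVc] at h1
        exact ⟨heq, H, (compl_iff.1 ⟨hH, hs⟩).1, (compl_iff.1 ⟨hH, hs⟩).2, h1⟩
      · right
        rw [hVc] at h2
        have hm : Nat.card (G ⧸ V) = p + 1 := by
          have h4 := card_eq_card_quotient_mul_card_subgroup V
          rw [heq, hVc] at h4
          apply Nat.eq_of_mul_eq_mul_left hp.pos
          rw [h4]; ring
        have hidx := index_two hp hVc hm h1
        have hMC : ∀ M : Subgroup G, M.Normal → V ≤ M → M ≠ ⊤ →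
            M ≤ centralizer (V : Set G) := by
          intro M hM hVM hMt
          obtain ⟨N, hN, hs⟩ := h3 M hM hVM hMt
          rw [← hs]
          exact sup_le (self_le_centralizer hp hVc) (le_centralizer_of_disjoint hN)
        have hCt : centralizer (V : Set G) ≠ ⊤ := by
          intro h
          rw [h, index_top] at hidx
          omega
        obtain ⟨K, hK, hs⟩ := h3 (centralizer (V : Set G)) inferInstance
          (self_le_centralizer hp hVc) hCt
        exact ⟨heq, h2, hidx, ⟨K, hK.1, by rw [inf_comm]; exact hK.2, hs⟩, hMC⟩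
    · left
      rw [hVc] at h1
      refine ⟨h1.symm, H, (compl_iff.1 ⟨hH, hs⟩).1, (compl_iff.1 ⟨hH, hs⟩).2, ?_⟩
      have h3 := card_eq_card_quotient_mul_card_subgroup V
      rw [← (sig_compl hH hs).2, hVc] at h3
      have h4 : p + 1 = 2 * Nat.card H := by
        apply Nat.eq_of_mul_eq_mul_left hp.pos
        rw [h1, h3]; ring
      omega
  · rintro ⟨V, hVn, hVc, h⟩
    have hV := minNormal_of_prime hp hVn hVc
    rcases h with ⟨h1, H, hH1, hH2, h2⟩ | ⟨h1, H, hH1, hH2, h2⟩ | ⟨h1, h2, h3, ⟨K, hK1, hK2, hK3⟩, h4⟩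
    · obtain ⟨h5, h6⟩ := compl_iff.2 ⟨hH1, hH2⟩
      have h3 := card_eq_card_quotient_mul_card_subgroup V
      rw [← (sig_compl h5 h6).2, hVc] at h3
      have h4 : p + 1 = 2 * Nat.card H := by
        apply Nat.eq_of_mul_eq_mul_left hp.pos
        rw [← h1, h3]; ring
      have h7 : Nat.card G < Nat.card V * (Nat.card V + 1) := by
        rw [hVc]
        have : 0 < Nat.card G := Nat.card_pos
        omega
      rw [iff1 hV h7, hVc]
      exact ⟨h1.symm, H, h5, h6, by omega⟩
    · obtain ⟨h5, h6⟩ := compl_iff.2 ⟨hH1, hH2⟩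
      rw [iff2 hV (by rw [hVc]; exact h1)]
      left
      exact ⟨H, h5, h6, by rw [hVc]; exact h2⟩
    · rw [iff2 hV (by rw [hVc]; exact h1)]
      right
      refine ⟨?_, by rw [hVc]; exact h2, ?_⟩
      · rintro ⟨H, hH, hs⟩
        have h5 : centralizer (V : Set G) = ⊤ := by
          rw [eq_top_iff, ← hs]
          exact sup_le (self_le_centralizer hp hVc) (le_centralizer_of_disjoint hH)
        rw [h5, index_top] at h3
        omega
      · intro M hM hVM hMt
        refine ⟨M ⊓ K, ⟨inferInstance, ?_⟩, ?_⟩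
        · rw [inf_assoc, inf_comm K V, hK2, inf_bot_eq]
        · apply le_antisymm
          · exact sup_le hVM inf_le_left
          · intro x hx
            have h5 : x ∈ V ⊔ K := by
              rw [hK3]
              exact h4 M hM hVM hMt hx
            rw [← SetLike.mem_coe, mul_normal V K] at h5
            obtain ⟨a, ha, b, hb, rfl⟩ := h5
            have h6 : b ∈ M := by
              have h7 : a⁻¹ * (a * b) ∈ M := M.mul_mem (M.inv_mem (hVM ha)) hx
              simpa using h7
            exact mul_mem (mem_sup_left ha) (mem_sup_right ⟨h6, hb⟩)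

end Pool.Agent.Results.MP_c4d704_al.PrimeDivisor
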