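import Pool.Agent.Helper72.LGA.RatioReal

/-!
# The equation `σ(G) = r |G|` for finite groups

There is a constant `C` such that for every real number `r` and every real `x ≥ 2` at most
`C x exp (-(log x) ^ (1 / 12))` natural numbers `n ≤ x` are the order of a finite group `G` with
`σ(G) = r |G|`, where `σ(G)` is the sum of the orders of the normal subgroups of `G`. The case
`r = 2` is the case of the Leinster groups.
-/

set_option autoImplicit false

namespace Pool.Agent.Results.MP_c4d704_al.Ratio

open scoped Classical in
theorem result :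
    ∃ C : ℝ, ∀ r : ℝ, ∀ x : ℝ, 2 ≤ x →
      (Set.ncard {n : ℕ | (n : ℝ) ≤ x ∧
        ∃ (G : Type) (_ : Group G) (_ : Fintype G), Fintype.card G = n ∧
          ∑ H : {H : Subgroup G // H.Normal}, (Nat.card H : ℝ) = r * n} : ℝ) ≤
        C * x * Real.exp (-(Real.log x ^ (1 / 12 : ℝ))) :=
  Pool.Agent.Helper72.LGA.ratio_real

end Pool.Agent.Results.MP_c4d704_al.Ratio
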